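import Pool.Agent.U50.HD.Spec

set_option autoImplicit false
open MeasureTheory Set Matrix
open scoped ENNReal Real

namespace Pool.Agent.U50.HD

noncomputable section

/-- the matrix `diag(4,3)` -/
def R : Matrix (Fin 2) (Fin 2) ℤ := !![4, 0; 0, 3]

/-- the digits -/
def B : Finset (Fin 2 → ℤ) := {![0, 0], ![1, 0], ![8, 1], ![9, 1]}

def G (x : ℝ) : Fin 2 → ℝ := ![x, Y x]

def mu : Measure (Fin 2 → ℝ) := nu.map G

lemma measurable_G : Measurable G := by
  rw [measurable_pi_iff]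
  intro i
  fin_cases i
  · exact measurable_id
  · exact measurable_Y

instance : IsProbabilityMeasure mu := Measure.isProbabilityMeasure_map measurable_G.aemeasurable

lemma charpoly_cond : ∀ z : ℂ, (R.map (Int.cast : ℤ → ℂ)).charpoly.IsRoot z → 1 < ‖z‖ := by
  intro z hz
  rw [Matrix.charpoly_fin_two] at hz
  simp only [Polynomial.IsRoot, Polynomial.eval_add, Polynomial.eval_sub, Polynomial.eval_pow,
    Polynomial.eval_X, Polynomial.eval_mul, Polynomial.eval_C, Matrix.trace_fin_two,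
    Matrix.det_fin_two, Matrix.map_apply] at hz
  simp only [R, Matrix.of_apply, Matrix.cons_val', Matrix.cons_val_zero, Matrix.cons_val_one,
    Matrix.cons_val_fin_one] at hz
  push_cast at hz
  have h : (z - 3) * (z - 4) = 0 := by linear_combination hz
  rcases mul_eq_zero.mp h with h1 | h1
  · have : z = 3 := by linear_combination h1
    rw [this]; norm_num
  · have : z = 4 := by linear_combination h1
    rw [this]; norm_num

lemma mem_B {b : Fin 2 → ℤ} : b ∈ B ↔ b = ![0, 0] ∨ b = ![1, 0] ∨ b = ![8, 1] ∨ b = ![9, 1] := by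
  simp [B]

lemma card_B : B.card = 4 := by decide

lemma simple_cond : ∀ b ∈ B, ∀ b' ∈ B, b ≠ b' → ¬ ∃ v : Fin 2 → ℤ, R *ᵥ v = b - b' := by
  intro b hb b' hb' hne ⟨v, hv⟩
  have h0 := congrFun hv 0
  have h1 := congrFun hv 1
  simp [R, Matrix.mulVec, dotProduct, Fin.sum_univ_two] at h0 h1
  rw [mem_B] at hb hb'
  rcases hb with rfl | rfl | rfl | rfl <;> rcases hb' with rfl | rfl | rfl | rfl <;>
    first
    | exact hne rfl
    | (simp at h0 h1; omega)

lemma det_R : R.det = 12 := by simp [R, Matrix.det_fin_two]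

lemma closure_cond :
    AddSubgroup.closure {v : Fin 2 → ℤ | ∃ k : ℕ, ∃ b ∈ B, v = (R ^ k) *ᵥ b} = ⊤ := by
  rw [eq_top_iff]
  intro v _
  have h1 : (![1, 0] : Fin 2 → ℤ) ∈ AddSubgroup.closure {v : Fin 2 → ℤ | ∃ k : ℕ, ∃ b ∈ B, v = (R ^ k) *ᵥ b} := by
    apply AddSubgroup.subset_closure
    exact ⟨0, ![1, 0], by rw [mem_B]; tauto, by simp⟩
  have h2 : (![8, 1] : Fin 2 → ℤ) ∈ AddSubgroup.closure {v : Fin 2 → ℤ | ∃ k : ℕ, ∃ b ∈ B, v = (R ^ k) *ᵥ b} := by
    apply AddSubgroup.subset_closure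
    exact ⟨0, ![8, 1], by rw [mem_B]; tauto, by simp⟩
  have h3 : v = (v 0 - 8 * v 1) • (![1, 0] : Fin 2 → ℤ) + (v 1) • (![8, 1] : Fin 2 → ℤ) := by
    funext i
    fin_cases i
    · simp; ring
    · simp
  rw [h3]
  exact AddSubgroup.add_mem _ (AddSubgroup.zsmul_mem _ h1 _) (AddSubgroup.zsmul_mem _ h2 _)

lemma inv_R : (R.map (Int.cast : ℤ → ℝ))⁻¹ = !![1 / 4, 0; 0, 1 / 3] := by
  apply Matrix.inv_eq_right_inv
  ext i j
  fin_cases i <;> fin_cases j <;> simp [R, Matrix.mul_apply, Fin.sum_univ_two]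

/-- the maps of the system -/
def phi (b : Fin 2 → ℤ) (x : Fin 2 → ℝ) : Fin 2 → ℝ :=
  (R.map (Int.cast : ℤ → ℝ))⁻¹ *ᵥ (x + fun i => (b i : ℝ))

lemma phi_eq (b : Fin 2 → ℤ) (x : Fin 2 → ℝ) : phi b x = ![(x 0 + b 0) / 4, (x 1 + b 1) / 3] := by
  unfold phi
  rw [inv_R]
  funext i
  fin_cases i
  · simp [Matrix.mulVec, dotProduct, Fin.sum_univ_two]; ring
  · simp [Matrix.mulVec, dotProduct, Fin.sum_univ_two]; ring

lemma measurable_phi (b : Fin 2 → ℤ) : Measurable (phi b) := by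
  have : phi b = fun x : Fin 2 → ℝ => ![(x 0 + b 0) / 4, (x 1 + b 1) / 3] := by
    funext x; exact phi_eq b x
  rw [this, measurable_pi_iff]
  intro i
  fin_cases i
  · show Measurable (fun x : Fin 2 → ℝ => (x 0 + b 0) / 4)
    fun_prop
  · show Measurable (fun x : Fin 2 → ℝ => (x 1 + b 1) / 3)
    fun_prop

lemma ae_mem_S : ∀ᵐ x ∂nu, x ∈ S := by
  unfold nu
  apply Measure.ae_smul_measure
  exact ae_restrict_mem (measurableSet_Ioc.union measurableSet_Ioc)

lemma map_phi (b : Fin 2 → ℤ) {e d : ℝ} (he : e = 0 ∨ e = 1) (hd : d = 0 ∨ d = 1)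
    (hb0 : ((b 0 : ℤ) : ℝ) = 8 * e + d) (hb1 : ((b 1 : ℤ) : ℝ) = e) :
    mu.map (phi b) = (nu.map (fun x : ℝ => (x + (8 * e + d)) / 4)).map G := by
  unfold mu
  rw [Measure.map_map (measurable_phi b) measurable_G, Measure.map_map measurable_G (by fun_prop)]
  apply Measure.map_congr
  filter_upwards [ae_mem_S] with x hx
  simp only [Function.comp]
  rw [phi_eq]
  unfold G
  rw [Y_psi he hd hx]
  simp only [Matrix.cons_val_zero, Matrix.cons_val_one]
  rw [hb0, hb1]

lemma self_affine : mu = ((B.card : ℝ≥0∞)⁻¹) • ∑ b ∈ B,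
    mu.map (fun x => (R.map (Int.cast : ℤ → ℝ))⁻¹ *ᵥ (x + fun i => (b i : ℝ))) := by
  have hsum : ∑ b ∈ B, mu.map (fun x => (R.map (Int.cast : ℤ → ℝ))⁻¹ *ᵥ (x + fun i => (b i : ℝ)))
      = (4 : ℝ≥0∞) • mu := by
    have h0 : ∀ b, (fun x : Fin 2 → ℝ => (R.map (Int.cast : ℤ → ℝ))⁻¹ *ᵥ (x + fun i => (b i : ℝ)))
        = phi b := fun b => rfl
    simp only [h0]
    have hB : ∑ b ∈ B, mu.map (phi b) = mu.map (phi ![0, 0]) + (mu.map (phi ![1, 0])
        + (mu.map (phi ![8, 1]) + mu.map (phi ![9, 1]))) := by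
      unfold B
      rw [Finset.sum_insert (by decide), Finset.sum_insert (by decide),
        Finset.sum_insert (by decide), Finset.sum_singleton]
    rw [hB]
    rw [map_phi ![0, 0] (e := 0) (d := 0) (by simp) (by simp) (by simp) (by simp),
      map_phi ![1, 0] (e := 0) (d := 1) (by simp) (by simp) (by simp) (by simp),
      map_phi ![8, 1] (e := 1) (d := 0) (by simp) (by simp) (by simp) (by simp),
      map_phi ![9, 1] (e := 1) (d := 1) (by simp) (by simp) (by simp; norm_num) (by simp)]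
    rw [← Measure.map_add _ _ measurable_G, ← Measure.map_add _ _ measurable_G,
      ← Measure.map_add _ _ measurable_G]
    have h1 := nu_self
    norm_num at h1 ⊢
    rw [← add_assoc, ← add_assoc, h1]
    rw [Measure.map_smul]
    rfl
  rw [hsum, card_B, smul_smul]
  have : ((4 : ℕ) : ℝ≥0∞)⁻¹ * 4 = 1 := by
    push_cast
    exact ENNReal.inv_mul_cancel (by norm_num) (by norm_num)
  rw [this, one_smul]

/-- the spectrum -/
def Lam : Set (Fin 2 → ℝ) := {l | l 1 = 0 ∧ ∃ n : ℤ, l 0 = n ∨ l 0 = n + 1 / 4}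

lemma integral_mu_exp (t : Fin 2 → ℝ) (ht : t 1 = 0) :
    ∫ x, Complex.exp (2 * π * Complex.I * ((∑ i, t i * x i : ℝ) : ℂ)) ∂mu
      = ∫ x, e (t 0 * x) ∂nu := by
  unfold mu
  rw [integral_map measurable_G.aemeasurable]
  · congr 1
    funext x
    unfold e G
    congr 3
    rw [Fin.sum_univ_two, ht]
    simp
  · apply Continuous.aestronglyMeasurable
    fun_prop

lemma orth : ∀ l ∈ Lam, ∀ l' ∈ Lam,
    (l = l' → ∫ x, Complex.exp (2 * π * Complex.I * ((∑ i, (l i - l' i) * x i : ℝ) : ℂ)) ∂mu = 1) ∧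
    (l ≠ l' → ∫ x, Complex.exp (2 * π * Complex.I * ((∑ i, (l i - l' i) * x i : ℝ) : ℂ)) ∂mu = 0) := by
  intro l hl l' hl'
  have h1 := integral_mu_exp (fun i => l i - l' i) (by show l 1 - l' 1 = 0; rw [hl.1, hl'.1, sub_zero])
  rw [h1]
  constructor
  · rintro rfl
    rw [sub_self]
    exact orth_zero
  · intro hne
    obtain ⟨h10, n, hn⟩ := hl
    obtain ⟨h10', n', hn'⟩ := hl'
    have hne0 : l 0 ≠ l' 0 := by
      intro h
      apply hne
      funext i
      fin_cases i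
      · exact h
      · show l 1 = l' 1
        rw [h10, h10']
    rcases hn with hn | hn <;> rcases hn' with hn' | hn'
    · have : l 0 - l' 0 = ((n - n' : ℤ) : ℝ) := by rw [hn, hn']; push_cast; ring
      rw [this]
      apply orth_int
      intro h
      apply hne0
      rw [hn, hn']
      have : n = n' := by omega
      rw [this]
    · have : l 0 - l' 0 = ((n - n' : ℤ) : ℝ) + -(1 / 4) := by rw [hn, hn']; push_cast; ring
      rw [this]
      exact orth_quarter _ (Or.inr rfl)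
    · have : l 0 - l' 0 = ((n - n' : ℤ) : ℝ) + 1 / 4 := by rw [hn, hn']; push_cast; ring
      rw [this]
      exact orth_quarter _ (Or.inl rfl)
    · have : l 0 - l' 0 = ((n - n' : ℤ) : ℝ) := by rw [hn, hn']; push_cast; ring
      rw [this]
      apply orth_int
      intro h
      apply hne0
      rw [hn, hn']
      have : n = n' := by omega
      rw [this]

lemma compl : ∀ f : (Fin 2 → ℝ) → ℂ, MemLp f 2 mu →
    (∀ l ∈ Lam, ∫ x, f x * Complex.exp (-(2 * π * Complex.I * ((∑ i, l i * x i : ℝ) : ℂ))) ∂mu = 0) →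
    f =ᵐ[mu] 0 := by
  intro f hf H
  have hf1 : AEStronglyMeasurable f (nu.map G) := hf.1
  have hfG : MemLp (f ∘ G) 2 nu := (memLp_map_measure_iff hf1 measurable_G.aemeasurable).mp hf
  have key : ∀ t : ℝ, (![t, 0] : Fin 2 → ℝ) ∈ Lam → ∫ x, (f ∘ G) x * e (-(t * x)) ∂nu = 0 := by
    intro t ht
    have h1 := H _ ht
    unfold mu at h1
    rw [integral_map measurable_G.aemeasurable] at h1
    · rw [← h1]
      congr 1
      funext x
      simp only [Function.comp]
      unfold e G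
      congr 2
      rw [Fin.sum_univ_two]
      simp only [Matrix.cons_val_zero, Matrix.cons_val_one]
      push_cast
      ring
    · refine AEStronglyMeasurable.mul hf1 ?_
      apply Continuous.aestronglyMeasurable
      fun_prop
  have hz : (f ∘ G) =ᵐ[nu] 0 := by
    apply complete hfG
    · intro n
      exact key n ⟨by simp, n, Or.inl (by simp)⟩
    · intro n
      exact key (n + 1 / 4) ⟨by simp, n, Or.inr (by simp)⟩
  have h2 : eLpNorm f 2 mu = 0 := by
    unfold mu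
    rw [eLpNorm_map_measure hf1 measurable_G.aemeasurable]
    rw [eLpNorm_eq_zero_iff hfG.1 (by norm_num)]
    exact hz
  exact (eLpNorm_eq_zero_iff hf.1 (by norm_num)).mp h2

lemma e_third_ne (y : ℤ) : 1 + e (y / 3) ≠ 0 := by
  intro h
  have h1 : e (y / 3) = -1 := by linear_combination h
  have h2 : e y = e (y / 3) * e (y / 3) * e (y / 3) := by
    rw [← e_add, ← e_add]
    congr 1
    ring
  rw [h1, e_int] at h2
  norm_num at h2

lemma sum_B (l l' : Fin 2 → ℤ) : ∑ b ∈ B, Complex.exp (2 * π * Complex.I *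
      ((∑ i, ((R.map (Int.cast : ℤ → ℝ))⁻¹ *ᵥ (fun j => (b j : ℝ))) i * ((l i : ℝ) - (l' i : ℝ)) : ℝ) : ℂ))
      = (1 + e ((l 0 - l' 0) / 4)) * (1 + e (((l 1 - l' 1 : ℤ) : ℝ) / 3)) := by
  have h1 : ∀ b : Fin 2 → ℤ, Complex.exp (2 * π * Complex.I *
      ((∑ i, ((R.map (Int.cast : ℤ → ℝ))⁻¹ *ᵥ (fun j => (b j : ℝ))) i * ((l i : ℝ) - (l' i : ℝ)) : ℝ) : ℂ))
      = e (b 0 * ((l 0 - l' 0) / 4) + b 1 * (((l 1 - l' 1 : ℤ) : ℝ) / 3)) := by
    intro b
    unfold e
    congr 3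
    rw [inv_R, Fin.sum_univ_two]
    simp [Matrix.mulVec, dotProduct, Fin.sum_univ_two]
    ring
  simp only [h1]
  unfold B
  rw [Finset.sum_insert (by decide), Finset.sum_insert (by decide),
        Finset.sum_insert (by decide), Finset.sum_singleton]
  simp only [Matrix.cons_val_zero, Matrix.cons_val_one, Int.cast_zero, zero_mul, Int.cast_one, one_mul,
    add_zero, e_zero, Int.cast_ofNat]
  have h2 : (8:ℝ) * ((l 0 - l' 0) / 4) = ((2 * (l 0 - l' 0) : ℤ) : ℝ) := by push_cast; ring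
  have h3 : (9:ℝ) * ((l 0 - l' 0) / 4) = ((2 * (l 0 - l' 0) : ℤ) : ℝ) + (l 0 - l' 0) / 4 := by
    push_cast; ring
  rw [h2, h3, e_add, e_int, e_add, e_add, e_int]
  ring

lemma not_hadamard : ¬ ∃ L : Finset (Fin 2 → ℤ), L.card = B.card ∧
        ∀ l ∈ L, ∀ l' ∈ L,
          (l = l' → ∑ b ∈ B, Complex.exp (2 * π * Complex.I *
              ((∑ i, ((R.map (Int.cast : ℤ → ℝ))⁻¹ *ᵥ (fun j => (b j : ℝ))) i * ((l i : ℝ) - (l' i : ℝ)) : ℝ) : ℂ))
              = (B.card : ℂ)) ∧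
          (l ≠ l' → ∑ b ∈ B, Complex.exp (2 * π * Complex.I *
              ((∑ i, ((R.map (Int.cast : ℤ → ℝ))⁻¹ *ᵥ (fun j => (b j : ℝ))) i * ((l i : ℝ) - (l' i : ℝ)) : ℝ) : ℂ))
              = 0) := by
  rintro ⟨L, hcard, hL⟩
  rw [card_B] at hcard
  obtain ⟨a, b, c, ha, hb, hc, hab, hac, hbc⟩ := Finset.two_lt_card_iff.mp (by rw [hcard]; norm_num : 2 < L.card)
  have key : ∀ l ∈ L, ∀ l' ∈ L, l ≠ l' → e (((l 0 : ℝ) - l' 0) / 4) = -1 := by
    intro l hl l' hl' hne
    have h1 := (hL l hl l' hl').2 hne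
    rw [sum_B] at h1
    rcases mul_eq_zero.mp h1 with h2 | h2
    · linear_combination h2
    · exact absurd h2 (e_third_ne _)
  have h1 := key a ha b hb hab
  have h2 := key b hb c hc hbc
  have h3 := key a ha c hc hac
  have h4 : e (((a 0 : ℝ) - c 0) / 4) = e (((a 0 : ℝ) - b 0) / 4) * e (((b 0 : ℝ) - c 0) / 4) := by
    rw [← e_add]
    congr 1
    ring
  rw [h1, h2, h3] at h4
  norm_num at h4

end

end Pool.Agent.U50.HD
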