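import Mathlib

set_option autoImplicit false
open MeasureTheory Set AddCircle
open scoped ENNReal Real

namespace Pool.Agent.U50.HD

instance fact01 : Fact ((0 : ℝ) < 1) := ⟨zero_lt_one⟩

lemma eq_zero_of_coeff {f : AddCircle (1 : ℝ) → ℂ} (hf : MemLp f 2 haarAddCircle)
    (h : ∀ n, fourierCoeff f n = 0) : f =ᵐ[haarAddCircle] 0 := by
  have h1 : hf.toLp f = 0 := by
    apply fourierBasis.repr.injective
    rw [map_zero]
    ext n
    rw [fourierBasis_repr, congrFun (fourierCoeff_congr_ae hf.coeFn_toLp) n, h n]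
    rfl
  have h2 := hf.coeFn_toLp
  rw [h1] at h2
  exact h2.symm.trans (Lp.coeFn_zero _ _ _)

lemma vol_eq_haar : (volume : Measure (AddCircle (1:ℝ))) = haarAddCircle := by
  rw [AddCircle.volume_eq_smul_haarAddCircle]; simp

/-- Uniqueness of Fourier coefficients on `(0, 1]`. -/
lemma fourier_zero {h : ℝ → ℂ} (hh : MemLp h 2 (volume.restrict (Ioc (0:ℝ) 1)))
    (H : ∀ n : ℤ, ∫ x in Ioc (0:ℝ) 1, h x * Complex.exp (-(2 * π * Complex.I * ((n * x : ℝ) : ℂ))) = 0) :
    h =ᵐ[volume.restrict (Ioc (0:ℝ) 1)] 0 := by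
  -- a strongly measurable representative
  obtain ⟨h', hm, hae⟩ := hh.1
  have hmp := AddCircle.measurePreserving_mk (1:ℝ) 0
  rw [zero_add] at hmp
  -- the function on the circle
  let F : AddCircle (1:ℝ) → ℂ := fun t => h' ((AddCircle.measurableEquivIoc (1:ℝ) 0 t : Ioc (0:ℝ) (0+1)) : ℝ)
  have hFm : Measurable F := by
    apply hm.measurable.comp
    exact measurable_subtype_coe.comp (AddCircle.measurableEquivIoc (1:ℝ) 0).measurable
  have hFmk : ∀ x ∈ Ioc (0:ℝ) 1, F (x : AddCircle (1:ℝ)) = h' x := by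
    intro x hx
    have hx' : x ∈ Ioc (0:ℝ) (0+1) := by simpa using hx
    simp only [F]
    congr 1
    have := AddCircle.equivIoc_coe_eq (p := (1:ℝ)) (a := 0) hx'
    exact congrArg Subtype.val this
  have hFmk_ae : (fun x : ℝ => F (x : AddCircle (1:ℝ))) =ᵐ[volume.restrict (Ioc (0:ℝ) 1)] h := by
    have h1 : (fun x : ℝ => F (x : AddCircle (1:ℝ))) =ᵐ[volume.restrict (Ioc (0:ℝ) 1)] h' := by
      rw [Filter.EventuallyEq, ae_restrict_iff' measurableSet_Ioc]
      exact Filter.Eventually.of_forall (fun x hx => hFmk x hx)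
    exact h1.trans hae.symm
  have hFL : MemLp F 2 haarAddCircle := by
    rw [← vol_eq_haar, ← hmp.map_eq]
    rw [memLp_map_measure_iff hFm.aestronglyMeasurable hmp.measurable.aemeasurable]
    exact (memLp_congr_ae hFmk_ae).mpr hh
  have hcoef : ∀ n, fourierCoeff F n = 0 := by
    intro n
    unfold fourierCoeff
    rw [← vol_eq_haar, ← hmp.map_eq]
    have hmeas : AEStronglyMeasurable (fun t : AddCircle (1:ℝ) => (fourier (-n) t : ℂ) • F t)
        (Measure.map (fun x : ℝ => (x : AddCircle (1:ℝ))) (volume.restrict (Ioc (0:ℝ) 1))) :=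
      ((fourier (-n)).continuous.measurable.smul hFm).aestronglyMeasurable
    rw [integral_map hmp.measurable.aemeasurable hmeas, ← H n]
    apply integral_congr_ae
    filter_upwards [hFmk_ae] with x hx
    rw [hx, fourier_coe_apply, smul_eq_mul, mul_comm]
    congr 2
    push_cast
    ring
  have hz := eq_zero_of_coeff hFL hcoef
  rw [← vol_eq_haar] at hz
  have hz' := hmp.quasiMeasurePreserving.ae_eq_comp hz
  exact hFmk_ae.symm.trans hz'

end Pool.Agent.U50.HD
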