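import Pool.Agent.U50.HD.Four

set_option autoImplicit false
open MeasureTheory Set
open scoped ENNReal Real

namespace Pool.Agent.U50.HD

noncomputable section

/-! ### The coding function -/

def E (x : ℝ) : ℝ := if 2 < x then 1 else 0

def T (x : ℝ) : ℝ := 4 * (x - 2 * E x) -
  (if (1 / 4 < x - 2 * E x ∧ x - 2 * E x ≤ 1 / 2) ∨ 3 / 4 < x - 2 * E x then 1 else 0)

def Y (x : ℝ) : ℝ := ∑' k : ℕ, E (T^[k] x) * (1 / 3) ^ (k + 1)

lemma E_nonneg (x : ℝ) : 0 ≤ E x := by unfold E; split_ifs <;> norm_num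
lemma E_le_one (x : ℝ) : E x ≤ 1 := by unfold E; split_ifs <;> norm_num

lemma summable_Y (x : ℝ) : Summable (fun k : ℕ => E (T^[k] x) * (1 / 3 : ℝ) ^ (k + 1)) := by
  have h : Summable (fun k : ℕ => (1 / 3 : ℝ) ^ (k + 1)) :=
    (summable_nat_add_iff 1).mpr (summable_geometric_of_lt_one (by norm_num) (by norm_num))
  refine Summable.of_nonneg_of_le (fun k => ?_) (fun k => ?_) h
  · exact mul_nonneg (E_nonneg _) (by positivity)
  · have h1 : (0:ℝ) ≤ (1 / 3 : ℝ) ^ (k + 1) := by positivity
    calc E (T^[k] x) * (1 / 3 : ℝ) ^ (k + 1) ≤ 1 * (1 / 3 : ℝ) ^ (k + 1) :=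
          mul_le_mul_of_nonneg_right (E_le_one _) h1
      _ = _ := one_mul _

lemma Y_eq (x : ℝ) : Y x = (E x + Y (T x)) / 3 := by
  unfold Y
  rw [(summable_Y x).tsum_eq_zero_add]
  have h1 : (∑' b : ℕ, E (T^[b + 1] x) * (1 / 3 : ℝ) ^ (b + 1 + 1))
      = (1 / 3) * ∑' b : ℕ, E (T^[b] (T x)) * (1 / 3 : ℝ) ^ (b + 1) := by
    rw [← tsum_mul_left]
    congr 1
    funext b
    rw [Function.iterate_succ_apply, pow_succ _ (b + 1)]
    ring
  rw [h1]
  simp
  ring

lemma measurable_E : Measurable E := by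
  unfold E
  exact Measurable.ite (measurableSet_lt measurable_const measurable_id) measurable_const
    measurable_const

lemma measurable_T : Measurable T := by
  unfold T
  have h1 : Measurable (fun x : ℝ => x - 2 * E x) :=
    measurable_id.sub (measurable_const.mul measurable_E)
  refine (measurable_const.mul h1).sub ?_
  refine Measurable.ite ?_ measurable_const measurable_const
  exact ((measurableSet_lt measurable_const h1).inter (measurableSet_le h1 measurable_const)).union
    (measurableSet_lt measurable_const h1)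

lemma measurable_Y : Measurable Y := by
  refine measurable_of_tendsto_metrizable
    (f := fun (n : ℕ) (x : ℝ) => ∑ k ∈ Finset.range n, E (T^[k] x) * (1 / 3 : ℝ) ^ (k + 1)) ?_ ?_
  · intro n
    apply Finset.measurable_fun_sum
    intro k _
    exact (measurable_E.comp (measurable_T.iterate k)).mul measurable_const
  · rw [tendsto_pi_nhds]
    intro x
    exact (summable_Y x).hasSum.tendsto_sum_nat

/-- The set `(0,1] ∪ (2,3]`. -/
def S : Set ℝ := Ioc 0 1 ∪ Ioc 2 3

/-- The functional equation of `Y`. -/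
lemma Y_psi {e d x : ℝ} (he : e = 0 ∨ e = 1) (hd : d = 0 ∨ d = 1) (hx : x ∈ S) :
    Y ((x + (8 * e + d)) / 4) = (Y x + e) / 3 := by
  have hE : E ((x + (8 * e + d)) / 4) = e := by
    unfold E
    rcases hx with hx | hx <;> rcases he with rfl | rfl <;> rcases hd with rfl | rfl <;>
      first
      | (rw [if_pos (by have := hx.1; have := hx.2; linarith)])
      | (rw [if_neg (by have := hx.1; have := hx.2; linarith)])
  have hT : T ((x + (8 * e + d)) / 4) = x := by
    unfold T
    rw [hE]
    have h2 : (x + (8 * e + d)) / 4 - 2 * e = (x + d) / 4 := by ring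
    rw [h2]
    rcases hx with hx | hx <;> rcases hd with rfl | rfl
    · rw [if_neg]
      · ring
      · have := hx.1; have := hx.2
        rintro (⟨h3, h4⟩ | h3) <;> linarith
    · rw [if_pos]
      · ring
      · have := hx.1; have := hx.2
        left; constructor <;> linarith
    · rw [if_neg]
      · ring
      · have := hx.1; have := hx.2
        rintro (⟨h3, h4⟩ | h3) <;> linarith
    · rw [if_pos]
      · ring
      · have := hx.1; have := hx.2
        right; linarith
  rw [Y_eq, hE, hT]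
  ring

/-! ### One-dimensional measure -/

def nu : Measure ℝ := (2 : ℝ≥0∞)⁻¹ • volume.restrict S

lemma S_disj : Disjoint (Ioc (0:ℝ) 1) (Ioc (2:ℝ) 3) := by
  rw [Set.disjoint_left]
  intro x hx hx'
  have := hx.2
  have := hx'.1
  linarith

lemma restrict_S : volume.restrict S = volume.restrict (Ioc (0:ℝ) 1) + volume.restrict (Ioc (2:ℝ) 3) := by
  unfold S
  exact Measure.restrict_union S_disj measurableSet_Ioc

instance : IsProbabilityMeasure nu := by
  constructor
  unfold nu
  rw [restrict_S]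
  simp only [Measure.smul_apply, Measure.add_apply, Measure.restrict_apply_univ, Real.volume_Ioc,
    smul_eq_mul]
  norm_num
  exact ENNReal.inv_mul_cancel (by norm_num) (by norm_num)

lemma map_restrict (c b : ℝ) :
    (volume.restrict (Ioc c (c + 1))).map (fun x : ℝ => (x + b) / 4)
      = (4 : ℝ≥0∞) • volume.restrict (Ioc ((c + b) / 4) ((c + b) / 4 + 1 / 4)) := by
  have hpre : (fun x : ℝ => (x + b) / 4) ⁻¹' (Ioc ((c + b) / 4) ((c + b) / 4 + 1 / 4)) = Ioc c (c + 1) := by
    ext x
    simp only [mem_preimage, mem_Ioc]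
    constructor
    · rintro ⟨h1, h2⟩; constructor <;> linarith
    · rintro ⟨h1, h2⟩; constructor <;> linarith
  have hmeas : Measurable (fun x : ℝ => (x + b) / 4) := by fun_prop
  have hmap : (volume : Measure ℝ).map (fun x : ℝ => (x + b) / 4) = (4 : ℝ≥0∞) • volume := by
    have h1 : (fun x : ℝ => (x + b) / 4) = (fun x : ℝ => x * (1 / 4)) ∘ (fun x : ℝ => x + b) := by
      funext x
      simp only [Function.comp]
      ring
    rw [h1, ← Measure.map_map (by fun_prop) (by fun_prop)]
    rw [map_add_right_eq_self (volume : Measure ℝ) b]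
    rw [Real.map_volume_mul_right (by norm_num : (1 / 4 : ℝ) ≠ 0)]
    congr 1
    norm_num
  rw [← hpre, ← Measure.restrict_map hmeas measurableSet_Ioc, hmap, Measure.restrict_smul]

lemma split_Ioc (c : ℝ) : volume.restrict (Ioc c (c + 1))
    = volume.restrict (Ioc c (c + 1 / 4)) + volume.restrict (Ioc (c + 1 / 4) (c + 1 / 2))
      + volume.restrict (Ioc (c + 1 / 2) (c + 3 / 4)) + volume.restrict (Ioc (c + 3 / 4) (c + 1)) := by
  have h1 : Ioc c (c + 1) = ((Ioc c (c + 1 / 4) ∪ Ioc (c + 1 / 4) (c + 1 / 2))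
      ∪ Ioc (c + 1 / 2) (c + 3 / 4)) ∪ Ioc (c + 3 / 4) (c + 1) := by
    rw [Ioc_union_Ioc_eq_Ioc (by linarith) (by linarith),
      Ioc_union_Ioc_eq_Ioc (by linarith) (by linarith),
      Ioc_union_Ioc_eq_Ioc (by linarith) (by linarith)]
  rw [h1, Measure.restrict_union _ measurableSet_Ioc, Measure.restrict_union _ measurableSet_Ioc,
    Measure.restrict_union _ measurableSet_Ioc]
  · rw [Set.disjoint_left]
    intro x hx hx'
    have := hx.2; have := hx'.1; linarith
  · rw [Ioc_union_Ioc_eq_Ioc (by linarith) (by linarith), Set.disjoint_left]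
    intro x hx hx'
    have := hx.2; have := hx'.1; linarith
  · rw [Ioc_union_Ioc_eq_Ioc (by linarith) (by linarith),
      Ioc_union_Ioc_eq_Ioc (by linarith) (by linarith), Set.disjoint_left]
    intro x hx hx'
    have := hx.2; have := hx'.1; linarith

lemma nu_map (b : ℝ) : nu.map (fun x : ℝ => (x + b) / 4)
    = (2 : ℝ≥0∞)⁻¹ • ((4 : ℝ≥0∞) • volume.restrict (Ioc (b / 4) (b / 4 + 1 / 4))
      + (4 : ℝ≥0∞) • volume.restrict (Ioc ((2 + b) / 4) ((2 + b) / 4 + 1 / 4))) := by
  unfold nu
  rw [restrict_S, Measure.map_smul, Measure.map_add _ _ (by fun_prop)]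
  have h1 := map_restrict 0 b
  have h2 := map_restrict 2 b
  rw [zero_add, zero_add] at h1
  rw [show (2:ℝ) + 1 = 3 by norm_num] at h2
  rw [h1, h2]

lemma nu_self : nu.map (fun x : ℝ => (x + 0) / 4) + nu.map (fun x : ℝ => (x + 1) / 4)
    + nu.map (fun x : ℝ => (x + 8) / 4) + nu.map (fun x : ℝ => (x + 9) / 4)
    = (4 : ℝ≥0∞) • nu := by
  rw [nu_map, nu_map, nu_map, nu_map]
  unfold nu
  rw [restrict_S]
  have h1 := split_Ioc 0
  have h2 := split_Ioc 2
  norm_num at h1 h2 ⊢
  rw [h1, h2]
  simp only [smul_add, smul_comm (4 : ℝ≥0∞) (2 : ℝ≥0∞)⁻¹]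
  abel

end

end Pool.Agent.U50.HD
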