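import Pool.Agent.U50.HD.Mea

set_option autoImplicit false
open MeasureTheory Set
open scoped ENNReal Real

namespace Pool.Agent.U50.HD

noncomputable section

lemma shift_mp : MeasurePreserving (fun x : ℝ => x + 2) (volume.restrict (Ioc (0:ℝ) 1))
    (volume.restrict (Ioc (2:ℝ) 3)) := by
  have h := (measurePreserving_add_right (volume : Measure ℝ) 2).restrict_preimage
    (s := Ioc (2:ℝ) 3) measurableSet_Ioc
  have hpre : (fun x : ℝ => x + 2) ⁻¹' (Ioc (2:ℝ) 3) = Ioc 0 1 := by
    ext x
    simp only [mem_preimage, mem_Ioc]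
    constructor
    · rintro ⟨h1, h2⟩; constructor <;> linarith
    · rintro ⟨h1, h2⟩; constructor <;> linarith
  rw [hpre] at h
  exact h

lemma shift_int (h : ℝ → ℂ) : ∫ x in Ioc (2:ℝ) 3, h x = ∫ x in Ioc (0:ℝ) 1, h (x + 2) := by
  have hemb : MeasurableEmbedding (fun x : ℝ => x + 2) := measurableEmbedding_addRight 2
  exact (shift_mp.integral_comp hemb h).symm

lemma integral_nu {h : ℝ → ℂ} (hh : Integrable h nu) :
    ∫ x, h x ∂nu = (1 / 2 : ℂ) * ((∫ x in Ioc (0:ℝ) 1, h x) + ∫ x in Ioc (0:ℝ) 1, h (x + 2)) := by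
  have h1 : Integrable h (volume.restrict S) := by
    unfold nu at hh
    exact (integrable_smul_measure (by norm_num) (by norm_num)).mp hh
  rw [restrict_S] at h1
  have h2 := h1.left_of_add_measure
  have h3 := h1.right_of_add_measure
  unfold nu
  rw [integral_smul_measure, restrict_S, integral_add_measure h2 h3, shift_int]
  rw [Complex.real_smul]
  congr 1
  norm_num

/-- `e(t) = exp(2 π i t)` -/
def e (t : ℝ) : ℂ := Complex.exp (2 * π * Complex.I * (t : ℂ))

lemma e_add (s t : ℝ) : e (s + t) = e s * e t := by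
  unfold e
  rw [← Complex.exp_add]
  congr 1
  push_cast
  ring

lemma e_zero : e 0 = 1 := by simp [e]

lemma e_int (n : ℤ) : e n = 1 := by
  unfold e
  rw [show (2 * π * Complex.I * (((n:ℤ) : ℝ) : ℂ) : ℂ) = n * (2 * π * Complex.I) by push_cast; ring]
  exact Complex.exp_int_mul_two_pi_mul_I n

lemma e_half : e (1 / 2) = -1 := by
  unfold e
  rw [show (2 * π * Complex.I * ((1 / 2 : ℝ) : ℂ) : ℂ) = π * Complex.I by push_cast; ring]
  exact Complex.exp_pi_mul_I

lemma e_neg_half : e (-(1 / 2)) = -1 := by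
  have h := e_add (1 / 2) (-(1 / 2))
  rw [add_neg_cancel, e_zero, e_half] at h
  linear_combination h

lemma norm_e (t : ℝ) : ‖e t‖ = 1 := by
  unfold e
  rw [show (2 * π * Complex.I * (t : ℂ) : ℂ) = ((2 * π * t : ℝ) : ℂ) * Complex.I by push_cast; ring]
  exact Complex.norm_exp_ofReal_mul_I _

lemma continuous_e : Continuous e := by
  unfold e
  fun_prop

lemma e_ne_zero (t : ℝ) : e t ≠ 0 := by
  intro h
  have := norm_e t
  rw [h] at this
  simp at this

lemma integral_e_int {n : ℤ} (hn : n ≠ 0) : ∫ x in Ioc (0:ℝ) 1, e (n * x) = 0 := by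
  rw [← intervalIntegral.integral_of_le zero_le_one]
  unfold e
  have h1 : ∀ x : ℝ, (2 * π * Complex.I * ((n * x : ℝ) : ℂ) : ℂ) = (2 * π * Complex.I * n) * (x:ℂ) := by
    intro x; push_cast; ring
  simp only [h1]
  have hc : (2 * π * Complex.I * n : ℂ) ≠ 0 := by
    have : (π : ℂ) ≠ 0 := by exact_mod_cast Real.pi_ne_zero
    have h2 : (n : ℂ) ≠ 0 := by exact_mod_cast hn
    have h3 : Complex.I ≠ 0 := Complex.I_ne_zero
    simp [this, h2, h3]
  rw [integral_exp_mul_complex hc]
  simp only [Complex.ofReal_one, mul_one, Complex.ofReal_zero, mul_zero, Complex.exp_zero]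
  have h4 := e_int n
  unfold e at h4
  push_cast at h4
  rw [h4]
  simp

lemma integrable_e (t : ℝ) : Integrable (fun x : ℝ => e (t * x)) nu := by
  refine Integrable.of_bound (C := 1) ?_ ?_
  · exact (continuous_e.comp (continuous_const.mul continuous_id)).aestronglyMeasurable
  · exact Filter.Eventually.of_forall (fun x => (norm_e _).le)

lemma integral_e_nu (t : ℝ) : ∫ x, e (t * x) ∂nu
    = (1 / 2 : ℂ) * ((1 + e (2 * t)) * ∫ x in Ioc (0:ℝ) 1, e (t * x)) := by
  rw [integral_nu (integrable_e t)]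
  congr 1
  have h1 : ∀ x : ℝ, e (t * (x + 2)) = e (2 * t) * e (t * x) := by
    intro x
    rw [← e_add]
    congr 1
    ring
  simp only [h1]
  rw [integral_const_mul]
  ring

lemma orth_zero : ∫ x, e (0 * x) ∂nu = 1 := by
  simp [e_zero]

lemma orth_int {n : ℤ} (hn : n ≠ 0) : ∫ x, e (n * x) ∂nu = 0 := by
  rw [integral_e_nu, integral_e_int hn]
  simp

lemma orth_quarter (n : ℤ) {s : ℝ} (hs : s = 1 / 4 ∨ s = -(1 / 4)) :
    ∫ x, e ((n + s) * x) ∂nu = 0 := by
  rw [integral_e_nu]
  have h1 : e (2 * (n + s)) = -1 := by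
    have h2 : (2 * ((n:ℝ) + s)) = ((2 * n : ℤ) : ℝ) + 2 * s := by push_cast; ring
    rw [h2, e_add, e_int]
    rcases hs with rfl | rfl
    · rw [show (2:ℝ) * (1 / 4) = 1 / 2 by norm_num, e_half]; ring
    · rw [show (2:ℝ) * (-(1 / 4)) = -(1 / 2) by norm_num, e_neg_half]; ring
  rw [h1]
  simp

/-- Completeness of `{e(nx)} ∪ {e((n + 1/4)x)}` in `L²(nu)`. -/
lemma complete {h : ℝ → ℂ} (hh : MemLp h 2 nu)
    (H0 : ∀ n : ℤ, ∫ x, h x * e (-(n * x)) ∂nu = 0)
    (H1 : ∀ n : ℤ, ∫ x, h x * e (-((n + 1 / 4) * x)) ∂nu = 0) : h =ᵐ[nu] 0 := by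
  have hS : MemLp h 2 (volume.restrict S) := by
    unfold nu at hh
    have := hh.smul_measure (c := (2 : ℝ≥0∞)) (by norm_num)
    rw [smul_smul, ENNReal.mul_inv_cancel (by norm_num) (by norm_num), one_smul] at this
    exact this
  rw [restrict_S] at hS
  have ha : MemLp h 2 (volume.restrict (Ioc (0:ℝ) 1)) := hS.left_of_add_measure
  have hb' : MemLp h 2 (volume.restrict (Ioc (2:ℝ) 3)) := hS.right_of_add_measure
  have hb : MemLp (fun x => h (x + 2)) 2 (volume.restrict (Ioc (0:ℝ) 1)) :=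
    hb'.comp_measurePreserving shift_mp
  have hint : ∀ t : ℝ, Integrable (fun x => h x * e (t * x)) nu := by
    intro t
    have h1 : Integrable h nu := hh.integrable (by norm_num)
    refine h1.mul_bdd (c := 1) ?_ ?_
    · exact (continuous_e.comp (continuous_const.mul continuous_id)).aestronglyMeasurable
    · exact Filter.Eventually.of_forall (fun x => (norm_e _).le)
  have hia : ∀ t : ℝ, Integrable (fun x => h x * e (t * x)) (volume.restrict (Ioc (0:ℝ) 1)) := by
    intro t
    have h1 : Integrable h (volume.restrict (Ioc (0:ℝ) 1)) := ha.integrable (by norm_num)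
    refine h1.mul_bdd (c := 1) ?_ ?_
    · exact (continuous_e.comp (continuous_const.mul continuous_id)).aestronglyMeasurable
    · exact Filter.Eventually.of_forall (fun x => (norm_e _).le)
  have hib : ∀ t : ℝ, Integrable (fun x => h (x + 2) * e (t * x)) (volume.restrict (Ioc (0:ℝ) 1)) := by
    intro t
    have h1 : Integrable (fun x => h (x + 2)) (volume.restrict (Ioc (0:ℝ) 1)) :=
      hb.integrable (by norm_num)
    refine h1.mul_bdd (c := 1) ?_ ?_
    · exact (continuous_e.comp (continuous_const.mul continuous_id)).aestronglyMeasurable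
    · exact Filter.Eventually.of_forall (fun x => (norm_e _).le)
  have key : ∀ t : ℝ, ∫ x, h x * e (t * x) ∂nu
      = (1 / 2 : ℂ) * ∫ x in Ioc (0:ℝ) 1, (h x + e (2 * t) * h (x + 2)) * e (t * x) := by
    intro t
    rw [integral_nu (hint t)]
    congr 1
    have h1 : ∀ x : ℝ, h (x + 2) * e (t * (x + 2)) = e (2 * t) * (h (x + 2) * e (t * x)) := by
      intro x
      rw [show t * (x + 2) = 2 * t + t * x by ring, e_add]
      ring
    simp only [h1]
    rw [integral_const_mul, ← integral_const_mul, ← integral_add (hia t) ((hib t).const_mul _)]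
    congr 1
    funext x
    ring
  -- the two linear combinations
  have P0 : (fun x => h x + h (x + 2)) =ᵐ[volume.restrict (Ioc (0:ℝ) 1)] 0 := by
    apply fourier_zero (ha.add hb)
    intro n
    have h1 := H0 n
    have h2 : ∀ x : ℝ, -((n:ℝ) * x) = (-(n:ℝ)) * x := fun x => by ring
    simp only [h2] at h1
    rw [key] at h1
    have h3 : e (2 * (-(n:ℝ))) = 1 := by
      have := e_int (-(2 * n))
      push_cast at this
      rw [show (2 * (-(n:ℝ))) = -(2 * (n:ℝ)) by ring]
      exact this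
    rw [h3] at h1
    have h4 : ∫ x in Ioc (0:ℝ) 1, (h x + 1 * h (x + 2)) * e (-(n:ℝ) * x) = 0 := by
      rcases mul_eq_zero.mp h1 with h5 | h5
      · norm_num at h5
      · exact h5
    rw [← h4]
    congr 1
    funext x
    simp only [Pi.add_apply]
    rw [one_mul]
    unfold e
    congr 2
    push_cast
    ring
  have P1 : (fun x => (h x - h (x + 2)) * e (-(1 / 4) * x)) =ᵐ[volume.restrict (Ioc (0:ℝ) 1)] 0 := by
    have hm : MemLp (fun x => (h x - h (x + 2)) * e (-(1 / 4) * x)) 2 (volume.restrict (Ioc (0:ℝ) 1)) := by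
      have h1 := ha.sub hb
      refine h1.of_le (h1.1.mul
        (continuous_e.comp (continuous_const.mul continuous_id)).aestronglyMeasurable) ?_
      refine Filter.Eventually.of_forall (fun x => ?_)
      simp only [Pi.sub_apply, norm_mul, norm_e, mul_one, le_refl]
    apply fourier_zero hm
    intro n
    have h1 := H1 n
    have h2 : ∀ x : ℝ, -(((n:ℝ) + 1 / 4) * x) = (-((n:ℝ) + 1 / 4)) * x := fun x => by ring
    simp only [h2] at h1
    rw [key] at h1
    have h3 : e (2 * (-((n:ℝ) + 1 / 4))) = -1 := by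
      have h4 : (2 * (-((n:ℝ) + 1 / 4))) = ((-(2 * n) : ℤ) : ℝ) + -(1 / 2) := by push_cast; ring
      rw [h4, e_add, e_int, e_neg_half]
      ring
    rw [h3] at h1
    have h4 : ∫ x in Ioc (0:ℝ) 1, (h x + -1 * h (x + 2)) * e (-((n:ℝ) + 1 / 4) * x) = 0 := by
      rcases mul_eq_zero.mp h1 with h5 | h5
      · norm_num at h5
      · exact h5
    rw [← h4]
    congr 1
    funext x
    have h5 : Complex.exp (-(2 * π * Complex.I * ((n * x : ℝ) : ℂ))) = e (-((n:ℝ) * x)) := by
      unfold e
      congr 1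
      push_cast
      ring
    rw [h5, mul_assoc, ← e_add]
    rw [show -(1 / 4) * x + -((n:ℝ) * x) = -((n:ℝ) + 1 / 4) * x by ring]
    ring
  have Q0 : ∀ᵐ x ∂(volume.restrict (Ioc (0:ℝ) 1)), h x = 0 ∧ h (x + 2) = 0 := by
    filter_upwards [P0, P1] with x h1 h2
    simp only [Pi.zero_apply] at h1 h2
    have h3 : h x - h (x + 2) = 0 := by
      rcases mul_eq_zero.mp h2 with h4 | h4
      · exact h4
      · exact absurd h4 (e_ne_zero _)
    constructor
    · linear_combination (h1 + h3) / 2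
    · linear_combination (h1 - h3) / 2
  have R0 : ∀ᵐ x ∂(volume.restrict (Ioc (0:ℝ) 1)), h x = 0 := Q0.mono (fun x hx => hx.1)
  have R1 : ∀ᵐ x ∂(volume.restrict (Ioc (2:ℝ) 3)), h x = 0 := by
    have hemb : MeasurableEmbedding (fun x : ℝ => x + 2) := measurableEmbedding_addRight 2
    rw [← shift_mp.map_eq, hemb.ae_map_iff]
    exact Q0.mono (fun x hx => hx.2)
  have R : ∀ᵐ x ∂(volume.restrict S), h x = 0 := by
    rw [restrict_S, ae_add_measure_iff]
    exact ⟨R0, R1⟩
  unfold nu
  exact Measure.ae_smul_measure R _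

end

end Pool.Agent.U50.HD
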